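import Pool.Agent.H73.QD.PTH

/-!
# Row CON of `qd_modules` (helper73, MP_c62aed_lc, MP_0f8dca_lc)
-/

set_option autoImplicit false

open Finset Pool.Agent.H76.QE
open Pool.Agent.H1.LP (supp ip comb kk S_DISP S_COL S_SMALL)
open H43.PS (PosDeg Low av)
open Pool.Agent.H73.OX (ch)

namespace Pool.Agent.H73.QD

section

variable {p N M : ℕ}

theorem comb_zero' (A : Fin M → Fin N → ZMod p) : comb A 0 = 0 := by
  funext j
  simp [comb]

theorem comb_add' (A : Fin M → Fin N → ZMod p) (C C' : Fin M → ZMod p) :
    comb A (C + C') = comb A C + comb A C' := by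
  funext j
  simp only [comb, Pi.add_apply, add_mul]
  rw [Finset.sum_add_distrib]

theorem comb_neg' (A : Fin M → Fin N → ZMod p) (C : Fin M → ZMod p) :
    comb A (-C) = -comb A C := by
  funext j
  simp only [comb, Pi.neg_apply, neg_mul]
  rw [Finset.sum_neg_distrib]

theorem comb_sub' (A : Fin M → Fin N → ZMod p) (C C' : Fin M → ZMod p) :
    comb A (C - C') = comb A C - comb A C' := by
  rw [sub_eq_add_neg, comb_add', comb_neg', ← sub_eq_add_neg]

/-- `y` is reached from `x` -/
def Rl (A : Fin M → Fin N → ZMod p) (s h : ℕ) (x y : Fin N → ZMod p) : Prop :=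
  ∃ C, Pth A s h x C ∧ comb A C = y - x

theorem rl_refl (A : Fin M → Fin N → ZMod p) (s h : ℕ) (x : Fin N → ZMod p)
    (hx : (supp x).card ≤ h) : Rl A s h x x := by
  refine ⟨0, ⟨0, fun _ => 0, rfl, rfl, fun j hj => absurd hj (by omega), fun j _ => ?_⟩, ?_⟩
  · rw [comb_zero', add_zero]
    exact hx
  · rw [comb_zero', sub_self]

theorem rl_symm (A : Fin M → Fin N → ZMod p) (s h : ℕ) (x y : Fin N → ZMod p)
    (hr : Rl A s h x y) : Rl A s h y x := by
  obtain ⟨C, ⟨n, S, h0, hn, hst, hme⟩, hC⟩ := hr
  refine ⟨-C, ⟨n, fun j => S (n - j) - C, ?_, ?_, ?_, ?_⟩, ?_⟩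
  · show S (n - 0) - C = 0
    rw [Nat.sub_zero, hn, sub_self]
  · show S (n - n) - C = -C
    rw [Nat.sub_self, h0, zero_sub]
  · intro j hj
    show (supp (S (n - (j + 1)) - C - (S (n - j) - C))).card ≤ s
    have e : S (n - (j + 1)) - C - (S (n - j) - C) =
        S (n - (j + 1)) - S (n - (j + 1) + 1) := by
      rw [show n - (j + 1) + 1 = n - j by omega]
      abel
    rw [e, sw_sub_comm]
    exact hst _ (by omega)
  · intro j hj
    show (supp (y + comb A (S (n - j) - C))).card ≤ h
    have e : y + comb A (S (n - j) - C) = x + comb A (S (n - j)) := by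
      rw [comb_sub', hC]
      abel
    rw [e]
    exact hme _ (by omega)
  · rw [comb_neg', hC, neg_sub]

theorem rl_trans (A : Fin M → Fin N → ZMod p) (s h : ℕ) (x y z : Fin N → ZMod p)
    (hr : Rl A s h x y) (hr' : Rl A s h y z) : Rl A s h x z := by
  obtain ⟨C, ⟨n, S, h0, hn, hst, hme⟩, hC⟩ := hr
  obtain ⟨C', ⟨n', S', h0', hn', hst', hme'⟩, hC'⟩ := hr'
  refine ⟨C + C', ⟨n + n', fun j => S (min j n) + S' (j - n), ?_, ?_, ?_, ?_⟩, ?_⟩
  · show S (min 0 n) + S' (0 - n) = 0
    rw [Nat.zero_min, Nat.zero_sub, h0, h0', add_zero]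
  · show S (min (n + n') n) + S' (n + n' - n) = C + C'
    rw [Nat.min_eq_right (by omega), Nat.add_sub_cancel_left, hn, hn']
  · intro j hj
    show (supp (S (min (j + 1) n) + S' (j + 1 - n) - (S (min j n) + S' (j - n)))).card ≤ s
    by_cases hjn : j < n
    · rw [Nat.min_eq_left (by omega), Nat.min_eq_left (by omega),
        show j + 1 - n = 0 by omega, show j - n = 0 by omega, h0', add_zero, add_zero]
      exact hst j hjn
    · rw [Nat.min_eq_right (by omega), Nat.min_eq_right (by omega),
        show j + 1 - n = (j - n) + 1 by omega, add_sub_add_left_eq_sub]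
      exact hst' _ (by omega)
  · intro j hj
    show (supp (x + comb A (S (min j n) + S' (j - n)))).card ≤ h
    by_cases hjn : j ≤ n
    · rw [Nat.min_eq_left hjn, show j - n = 0 by omega, h0', add_zero]
      exact hme j hjn
    · have e : x + comb A (S (min j n) + S' (j - n)) = y + comb A (S' (j - n)) := by
        rw [Nat.min_eq_right (by omega), hn, comb_add', hC]
        abel
      rw [e]
      exact hme' _ (by omega)
  · rw [comb_add', hC, hC']
    abel

open Classical in
/-- the coefficients of the path -/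
noncomputable def kp (A : Fin M → Fin N → ZMod p) (s h : ℕ) (x y : Fin N → ZMod p) :
    Fin M → ZMod p :=
  if hr : Rl A s h x y then Classical.choose hr else 0

theorem kp_spec (A : Fin M → Fin N → ZMod p) (s h : ℕ) (x y : Fin N → ZMod p)
    (hr : Rl A s h x y) : Pth A s h x (kp A s h x y) ∧ comb A (kp A s h x y) = y - x := by
  unfold kp
  rw [dif_pos hr]
  exact Classical.choose_spec hr

/-- CON -/
theorem pf_CON : T_CON := by
  intro p M N h s r t₁ _ A hI h3 hP
  refine ⟨Rl A s h, kp A s h, ?_, ?_, ?_, ?_, ?_, ?_⟩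
  · intro x hx
    exact rl_refl A s h x (by simpa [BB] using hx)
  · intro x _ y _ hr
    exact rl_symm A s h x y hr
  · intro x _ y _ z _ hr hr'
    exact rl_trans A s h x y z hr hr'
  · intro x _ y _ hr
    obtain ⟨h1, h2⟩ := kp_spec A s h x y hr
    exact ⟨h2, hP x _ h1⟩
  · intro x _ y _ z _ hxz hyz
    have hxy : Rl A s h x y := rl_trans A s h x z y hxz (rl_symm A s h y z hyz)
    obtain ⟨a1, a2⟩ := kp_spec A s h x y hxy
    obtain ⟨b1, b2⟩ := kp_spec A s h x z hxz
    obtain ⟨c1, c2⟩ := kp_spec A s h y z hyz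
    have wa := hP x _ a1
    have wb := hP x _ b1
    have wc := hP y _ c1
    have key : kp A s h x y - (kp A s h x z - kp A s h y z) = 0 := by
      apply hI
      · have d1 := sw_sub (kp A s h x y) (kp A s h x z - kp A s h y z)
        have d2 := sw_sub (kp A s h x z) (kp A s h y z)
        omega
      · rw [comb_sub', comb_sub', a2, b2, c2]
        abel
    exact sub_eq_zero.mp key
  · intro x hx y hy hr C hC
    by_contra hc
    push Not at hc
    apply hr
    have hx' : (supp x).card ≤ h := by simpa [BB] using hx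
    have hy' : (supp y).card ≤ h := by simpa [BB] using hy
    refine ⟨C, ⟨1, fun j => if j = 0 then 0 else C, rfl, rfl, ?_, ?_⟩, hC⟩
    · intro j hj
      obtain rfl : j = 0 := by omega
      show (supp (C - 0)).card ≤ s
      rw [sub_zero]
      exact hc
    · intro j hj
      show (supp (x + comb A (if j = 0 then 0 else C))).card ≤ h
      by_cases h0 : j = 0
      · rw [if_pos h0, comb_zero', add_zero]
        exact hx'
      · rw [if_neg h0, hC, add_sub_cancel]
        exact hy'

end

end Pool.Agent.H73.QD
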