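import Pool.Agent.H73.QD.LVT
import Pool.Agent.H73.QD.CONN

/-!
# Row LV of `qd_modules` (helper73, MP_c62aed_lc, MP_0f8dca_lc)
-/

set_option autoImplicit false

open Finset Pool.Agent.H76.QE
open Pool.Agent.H1.LP (supp ip comb kk S_DISP S_COL S_SMALL)
open H43.PS (PosDeg Low av)
open Pool.Agent.H73.OX (ch)

namespace Pool.Agent.H73.QD

section

variable {p : ℕ} [hp : Fact p.Prime]

theorem sum_std (v : ZMod p) :
    ∑ s : ZMod p, (ZMod.stdAddChar (s * v) : ℂ) = if v = 0 then (p : ℂ) else 0 := by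
  have h := AddChar.sum_mulShift (R := ZMod p) v (ZMod.isPrimitive_stdAddChar p)
  rw [h, ZMod.card]
  split_ifs <;> simp

/-- Fourier coefficients of a function of two letters -/
noncomputable def Fh (Φ : ZMod p → ZMod p → ℂ) (s s' : ZMod p) : ℂ :=
  ((p : ℂ) ^ 2)⁻¹ * ∑ u, ∑ u', Φ u u' * ZMod.stdAddChar (-(s * u + s' * u'))

theorem inv2 (Φ : ZMod p → ZMod p → ℂ) (y y' : ZMod p) :
    ∑ s, ∑ s', Fh Φ s s' * ZMod.stdAddChar (s * y + s' * y') = Φ y y' := by
  have hp0 : (p : ℂ) ≠ 0 := Nat.cast_ne_zero.mpr hp.out.ne_zero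
  have e1 : ∀ s s' : ZMod p, Fh Φ s s' * ZMod.stdAddChar (s * y + s' * y') =
      ((p : ℂ) ^ 2)⁻¹ * ∑ u, ∑ u', Φ u u' * (ZMod.stdAddChar (s * (y - u)) *
        ZMod.stdAddChar (s' * (y' - u'))) := by
    intro s s'
    unfold Fh
    rw [mul_assoc, sum_mul]
    congr 1
    refine sum_congr rfl fun u _ => ?_
    rw [sum_mul]
    refine sum_congr rfl fun u' _ => ?_
    rw [mul_assoc, ← AddChar.map_add_eq_mul, ← AddChar.map_add_eq_mul]
    congr 2
    ring
  have e2 : ∑ s, ∑ s', ((p : ℂ) ^ 2)⁻¹ * ∑ u, ∑ u', Φ u u' * (ZMod.stdAddChar (s * (y - u)) *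
        ZMod.stdAddChar (s' * (y' - u'))) =
      ((p : ℂ) ^ 2)⁻¹ * ∑ u, ∑ u', Φ u u' * ((∑ s : ZMod p, ZMod.stdAddChar (s * (y - u))) *
        ∑ s' : ZMod p, ZMod.stdAddChar (s' * (y' - u'))) := by
    simp only [← mul_sum]
    congr 1
    rw [sum_comm]
    simp only [mul_sum, sum_mul]
    rw [sum_comm' (t' := univ) (s' := fun _ => univ) (by simp)]
    calc ∑ x : ZMod p, ∑ x_1 : ZMod p, ∑ u, ∑ u', Φ u u' * (ZMod.stdAddChar (x * (y - u)) *
        ZMod.stdAddChar (x_1 * (y' - u')))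
        = ∑ x : ZMod p, ∑ u, ∑ x_1 : ZMod p, ∑ u', Φ u u' * (ZMod.stdAddChar (x * (y - u)) *
        ZMod.stdAddChar (x_1 * (y' - u'))) := sum_congr rfl fun x _ => sum_comm
      _ = ∑ u, ∑ x : ZMod p, ∑ x_1 : ZMod p, ∑ u', Φ u u' * (ZMod.stdAddChar (x * (y - u)) *
        ZMod.stdAddChar (x_1 * (y' - u'))) := sum_comm
      _ = ∑ u, ∑ u', ∑ x : ZMod p, ∑ x_1 : ZMod p, Φ u u' * (ZMod.stdAddChar (x * (y - u)) *
        ZMod.stdAddChar (x_1 * (y' - u'))) := by
          refine sum_congr rfl fun u _ => ?_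
          rw [sum_comm]
          refine (sum_congr rfl fun x _ => sum_comm).trans ?_
          rw [sum_comm]
          refine sum_congr rfl fun u' _ => sum_comm
      _ = _ := by
          refine sum_congr rfl fun u _ => sum_congr rfl fun u' _ => ?_
          rw [sum_comm]
  simp only [e1, e2, sum_std, sub_eq_zero]
  rw [sum_eq_single y, sum_eq_single y']
  · rw [if_pos rfl, if_pos rfl]
    field_simp
  · intro u' _ hu
    rw [if_neg (Ne.symm hu)]
    ring
  · simp
  · intro u _ hu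
    refine sum_eq_zero fun u' _ => ?_
    rw [if_neg (Ne.symm hu)]
    ring
  · simp

theorem norm_std (v : ZMod p) : ‖(ZMod.stdAddChar v : ℂ)‖ = 1 := AddChar.norm_apply _ _

theorem norm_Fh (Φ : ZMod p → ZMod p → ℂ) (hΦ : ∀ u u', ‖Φ u u'‖ ≤ 1) (s s' : ZMod p) :
    ‖Fh Φ s s'‖ ≤ 1 := by
  have hp0 : (0 : ℝ) < p := Nat.cast_pos.mpr hp.out.pos
  unfold Fh
  rw [norm_mul, norm_inv, norm_pow, Complex.norm_natCast, inv_mul_le_iff₀ (by positivity), mul_one]
  calc ‖∑ u, ∑ u', Φ u u' * ZMod.stdAddChar (-(s * u + s' * u'))‖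
      ≤ ∑ u, ∑ u', ‖Φ u u' * ZMod.stdAddChar (-(s * u + s' * u'))‖ :=
        (norm_sum_le _ _).trans (sum_le_sum fun u _ => norm_sum_le _ _)
    _ ≤ ∑ u : ZMod p, ∑ u' : ZMod p, (1 : ℝ) := by
        refine sum_le_sum fun u _ => sum_le_sum fun u' _ => ?_
        rw [norm_mul, norm_std, mul_one]
        exact hΦ u u'
    _ = (p : ℝ) ^ 2 := by
        simp [ZMod.card, sq]

/-- the quadratic form of a kernel -/
theorem quad_form {M N : ℕ} (A : Fin M → Fin N → ZMod p) (S : Finset (Fin M → ZMod p))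
    (κ : (Fin M → ZMod p) → ℂ) (g : (Fin N → ZMod p) → ℝ)
    (hg : ∀ z, ((g z : ℝ) : ℂ) = ∑ C ∈ S, κ C * ch (comb A C) z)
    (V : Finset (Fin N → ZMod p)) (a : (Fin N → ZMod p) → ℂ) (f : (Fin N → ZMod p) → ℝ)
    (hf : ∀ z, ((f z : ℝ) : ℂ) = ∑ l ∈ V, a l * ch l z) :
    ((∑ z, g z * f z ^ 2 : ℝ) : ℂ) = (p : ℂ) ^ N * ∑ x ∈ V, ∑ y ∈ V,
      a x * (starRingEnd ℂ) (a y) * ∑ C ∈ S.filter (fun C => comb A C = y - x), κ C := by
  have hf' : ∀ z, ((f z : ℝ) : ℂ) = ∑ y ∈ V, (starRingEnd ℂ) (a y) * ch (-y) z := by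
    intro z
    have h := congrArg (starRingEnd ℂ) (hf z)
    rw [Complex.conj_ofReal, map_sum] at h
    rw [h]
    refine sum_congr rfl fun y _ => ?_
    rw [map_mul, Pool.Agent.H73.OX.conj_ch]
  have e0 : ((∑ z, g z * f z ^ 2 : ℝ) : ℂ) =
      ∑ z, ∑ x ∈ V, ∑ y ∈ V, ∑ C ∈ S, (a x * (starRingEnd ℂ) (a y) * κ C) *
        ch (comb A C + x + -y) z := by
    push_cast
    refine sum_congr rfl fun z _ => ?_
    have h1 : ((f z : ℝ) : ℂ) ^ 2 = (∑ x ∈ V, a x * ch x z) *
        ∑ y ∈ V, (starRingEnd ℂ) (a y) * ch (-y) z := by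
      rw [← hf, ← hf', sq]
    rw [h1, hg, sum_mul_sum, mul_sum]
    refine sum_congr rfl fun x _ => ?_
    rw [mul_sum]
    refine sum_congr rfl fun y _ => ?_
    rw [sum_mul]
    refine sum_congr rfl fun C _ => ?_
    rw [Pool.Agent.H73.OX.ch_add_left, Pool.Agent.H73.OX.ch_add_left]
    ring
  rw [e0, sum_comm, mul_sum]
  refine sum_congr rfl fun x _ => ?_
  rw [sum_comm, mul_sum]
  refine sum_congr rfl fun y _ => ?_
  rw [sum_comm, sum_filter, mul_sum, mul_sum]
  refine sum_congr rfl fun C _ => ?_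
  rw [← mul_sum, Pool.Agent.H73.OX.sum_ch]
  by_cases h : comb A C = y - x
  · rw [if_pos h, if_pos (by rw [h]; abel)]
    ring
  · rw [if_neg h, if_neg]
    · ring
    · intro hc
      apply h
      have : comb A C = (comb A C + x + -y) + y - x := by abel
      rw [this, hc, zero_add]

theorem ch_comb_add {M N : ℕ} (A : Fin M → Fin N → ZMod p) (C C' : Fin M → ZMod p)
    (z : Fin N → ZMod p) : ch (comb A (C + C')) z = ch (comb A C) z * ch (comb A C') z := by
  rw [comb_add', Pool.Agent.H73.OX.ch_add_left]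

theorem ch_comb_single {M N : ℕ} (A : Fin M → Fin N → ZMod p) (k : Fin M) (s : ZMod p)
    (z : Fin N → ZMod p) : ch (comb A (Pi.single k s)) z = ZMod.stdAddChar (s * ip (A k) z) := by
  unfold ch
  congr 1
  unfold ip comb
  rw [mul_sum]
  refine sum_congr rfl fun j _ => ?_
  rw [sum_eq_single k]
  · rw [Pi.single_eq_same]
    ring
  · intro i _ hi
    rw [Pi.single_eq_of_ne hi]
    ring
  · simp

theorem D0_complex (hCPX : T_CPX) {R N : ℕ} (A : Fin (R + R) → Fin N → ZMod p) (τ : ℕ)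
    (b : Fin (R + R) → ZMod p) (z : Fin N → ZMod p) :
    ((D0 A τ b z : ℝ) : ℂ) = ∑ C ∈ CC p (R + R) τ, KF b C * ch (comb A C) z := by
  unfold D0 av
  rw [Complex.ofReal_mul, Complex.ofReal_sum]
  have e1 : ∀ x : Fin R → ZMod p, ((LD A τ (sh b x) z : ℝ) : ℂ) =
      ∑ C ∈ CC p (R + R) τ, ZMod.stdAddChar (-ip C (sh b x)) * ch (comb A C) z := by
    intro x
    rw [hCPX]
    refine sum_congr rfl fun C _ => ?_
    unfold ch
    rw [← AddChar.map_add_eq_mul]
    congr 1
    ring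
  simp only [e1]
  rw [sum_comm, mul_sum]
  refine sum_congr rfl fun C _ => ?_
  unfold KF
  rw [← sum_mul, mul_assoc]
  congr 1
  rw [Fintype.card_fun, Fintype.card_fin, ZMod.card]
  push_cast
  rfl

/-- the coefficient vector of the two forms of an equation -/
def sg {R : ℕ} (i : Fin R) (s s' : ZMod p) : Fin (R + R) → ZMod p :=
  Pi.single (Fin.castAdd R i) s + Pi.single (Fin.natAdd R i) s'

theorem sw_single {M : ℕ} (k : Fin M) (s : ZMod p) :
    (supp (Pi.single k s : Fin M → ZMod p)).card ≤ 1 := by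
  rw [← card_singleton k]
  refine card_le_card fun j hj => ?_
  rw [mem_singleton]
  by_contra hc
  unfold supp at hj
  rw [mem_filter, Pi.single_eq_of_ne hc] at hj
  exact hj.2 rfl

theorem sw_sg {R : ℕ} (i : Fin R) (s s' : ZMod p) : (supp (sg i s s')).card ≤ 2 := by
  unfold sg
  have h1 := sw_add (Pi.single (Fin.castAdd R i) s) (Pi.single (Fin.natAdd R i) s' :
    Fin (R + R) → ZMod p)
  have h2 := sw_single (Fin.castAdd R i) s
  have h3 := sw_single (Fin.natAdd R i) s'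
  omega

theorem ch_sg {R N : ℕ} (A : Fin (R + R) → Fin N → ZMod p) (i : Fin R) (s s' : ZMod p)
    (z : Fin N → ZMod p) : ch (comb A (sg i s s')) z =
      ZMod.stdAddChar (s * ip (A (Fin.castAdd R i)) z + s' * ip (A (Fin.natAdd R i)) z) := by
  unfold sg
  rw [ch_comb_add, ch_comb_single, ch_comb_single, ← AddChar.map_add_eq_mul]

theorem ip_sg {R : ℕ} (i : Fin R) (s s' : ZMod p) (c : Fin (R + R) → ZMod p) :
    ip (sg i s s') c = s * c (Fin.castAdd R i) + s' * c (Fin.natAdd R i) := by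
  unfold sg
  rw [Pool.Agent.H73.OX.ip_add_left, Pool.Agent.H73.OX.ip_comm, Pool.Agent.H73.OX.ip_single,
    Pool.Agent.H73.OX.ip_comm, Pool.Agent.H73.OX.ip_single]
  ring

/-- the indicator of the violation as a function of the two forms -/
def Ph {R : ℕ} (b : Fin (R + R) → ZMod p) (i : Fin R) (y y' : ZMod p) : ℂ :=
  if y' - b (Fin.natAdd R i) ≠ (y - b (Fin.castAdd R i)) ^ 2 then 1 else 0

/-- the kernel of the restricted density -/
noncomputable def kr {R : ℕ} (b : Fin (R + R) → ZMod p) (τ : ℕ) (i : Fin R)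
    (C : Fin (R + R) → ZMod p) : ℂ :=
  ∑ s, ∑ s', if (supp (C - sg i s s')).card ≤ τ then KF b (C - sg i s s') * Fh (Ph b i) s s' else 0

open Classical in
theorem bad_complex (hCPX : T_CPX) {R N : ℕ} (A : Fin (R + R) → Fin N → ZMod p) (τ : ℕ)
    (b : Fin (R + R) → ZMod p) (i : Fin R) (z : Fin N → ZMod p) :
    (((if Bad A b i z then D0 A τ b z else 0 : ℝ)) : ℂ) =
      ∑ C ∈ CC p (R + R) (τ + 2), kr b τ i C * ch (comb A C) z := by
  have e1 : (((if Bad A b i z then D0 A τ b z else 0 : ℝ)) : ℂ) =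
      ((D0 A τ b z : ℝ) : ℂ) * Ph b i (ip (A (Fin.castAdd R i)) z) (ip (A (Fin.natAdd R i)) z) := by
    unfold Ph
    by_cases h : Bad A b i z
    · have h' : ip (A (Fin.natAdd R i)) z - b (Fin.natAdd R i) ≠
        (ip (A (Fin.castAdd R i)) z - b (Fin.castAdd R i)) ^ 2 := h
      rw [if_pos h, if_pos h', mul_one]
    · have h' : ¬ (ip (A (Fin.natAdd R i)) z - b (Fin.natAdd R i) ≠
        (ip (A (Fin.castAdd R i)) z - b (Fin.castAdd R i)) ^ 2) := h
      rw [if_neg h, if_neg h', mul_zero, Complex.ofReal_zero]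
  rw [e1, ← inv2 (Ph b i), D0_complex hCPX]
  have e2 : ∀ s s' : ZMod p, (∑ C ∈ CC p (R + R) τ, KF b C * ch (comb A C) z) *
      (Fh (Ph b i) s s' * ZMod.stdAddChar (s * ip (A (Fin.castAdd R i)) z +
        s' * ip (A (Fin.natAdd R i)) z)) =
      ∑ C ∈ CC p (R + R) (τ + 2), (if (supp (C - sg i s s')).card ≤ τ then
        KF b (C - sg i s s') * Fh (Ph b i) s s' else 0) * ch (comb A C) z := by
    intro s s'
    rw [← ch_sg, sum_mul]
    have e3 : ∑ C ∈ CC p (R + R) (τ + 2), (if (supp (C - sg i s s')).card ≤ τ then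
        KF b (C - sg i s s') * Fh (Ph b i) s s' else 0) * ch (comb A C) z =
        ∑ C ∈ (CC p (R + R) (τ + 2)).filter (fun C => (supp (C - sg i s s')).card ≤ τ),
        KF b (C - sg i s s') * Fh (Ph b i) s s' * ch (comb A C) z := by
      rw [sum_filter]
      refine sum_congr rfl fun C _ => ?_
      split_ifs
      · rfl
      · rw [zero_mul]
    rw [e3]
    refine sum_bij' (fun C _ => C + sg i s s') (fun C _ => C - sg i s s') ?_ ?_ ?_ ?_ ?_
    · intro C hC
      unfold CC at hC ⊢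
      rw [mem_filter] at hC
      rw [mem_filter, mem_filter, add_sub_cancel_right]
      have h1 := sw_add C (sg i s s')
      have h2 := sw_sg i s s'
      exact ⟨⟨mem_univ _, by omega⟩, hC.2⟩
    · intro C hC
      rw [mem_filter] at hC
      unfold CC
      rw [mem_filter]
      exact ⟨mem_univ _, hC.2⟩
    · intro C _
      exact add_sub_cancel_right _ _
    · intro C _
      exact sub_add_cancel _ _
    · intro C _
      rw [add_sub_cancel_right, ch_comb_add]
      ring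
  simp only [mul_sum, e2]
  unfold kr
  simp only [sum_mul]
  rw [sum_comm]
  rw [sum_comm]
  refine (sum_congr rfl fun s _ => sum_comm).trans ?_
  rw [sum_comm]

/-- the kernel vanishes at small weights -/
theorem kr_zero {R : ℕ} (b : Fin (R + R) → ZMod p) (τ : ℕ) (i : Fin R)
    (C : Fin (R + R) → ZMod p) (hC : (supp C).card + 2 ≤ τ) : kr b τ i C = 0 := by
  have e1 : kr b τ i C = ∑ s, ∑ s', KF b (C - sg i s s') * Fh (Ph b i) s s' := by
    unfold kr
    refine sum_congr rfl fun s _ => sum_congr rfl fun s' _ => if_pos ?_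
    have h1 := sw_sub C (sg i s s')
    have h2 := sw_sg i s s'
    omega
  have e2 : ∀ s s' : ZMod p, KF b (C - sg i s s') * Fh (Ph b i) s s' =
      ((p : ℂ) ^ R)⁻¹ * ∑ x : Fin R → ZMod p, ZMod.stdAddChar (-ip C (sh b x)) *
        (Fh (Ph b i) s s' * ZMod.stdAddChar (s * sh b x (Fin.castAdd R i) +
          s' * sh b x (Fin.natAdd R i))) := by
    intro s s'
    unfold KF
    rw [mul_assoc, sum_mul]
    congr 1
    refine sum_congr rfl fun x _ => ?_
    rw [← ip_sg, sub_eq_add_neg, Pool.Agent.H73.OX.ip_add_left, Pool.Agent.H73.OX.ip_neg_left,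
      neg_add, neg_neg, AddChar.map_add_eq_mul]
    ring
  rw [e1]
  simp only [e2, ← mul_sum]
  rw [sum_congr rfl fun s _ => sum_comm, sum_comm]
  have e3 : ∀ x : Fin R → ZMod p, ∑ s, ∑ s', ZMod.stdAddChar (-ip C (sh b x)) *
        (Fh (Ph b i) s s' * ZMod.stdAddChar (s * sh b x (Fin.castAdd R i) +
          s' * sh b x (Fin.natAdd R i))) = 0 := by
    intro x
    simp only [← mul_sum]
    rw [inv2]
    have h1 : sh b x (Fin.castAdd R i) = b (Fin.castAdd R i) + x i := by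
      unfold sh
      rw [Fin.addCases_left]
    have h2 : sh b x (Fin.natAdd R i) = b (Fin.natAdd R i) + x i ^ 2 := by
      unfold sh
      rw [Fin.addCases_right]
    unfold Ph
    rw [h1, h2, if_neg, mul_zero]
    rw [not_not]
    ring
  rw [sum_congr rfl fun x _ => e3 x, sum_const_zero, mul_zero]

theorem norm_Ph {R : ℕ} (b : Fin (R + R) → ZMod p) (i : Fin R) (y y' : ZMod p) :
    ‖Ph b i y y'‖ ≤ 1 := by
  unfold Ph
  split_ifs <;> simp

/-- the kernel is small -/
theorem kr_small {R : ℕ} (b : Fin (R + R) → ZMod p) (τ : ℕ) (i : Fin R) (n0 β : ℝ)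
    (hn0 : 0 ≤ n0) (hβ : 0 ≤ β)
    (hb : ∀ C : Fin (R + R) → ZMod p, τ < (supp C).card + 4 → (p : ℝ) ^ 2 * ‖KF b C‖ * n0 ≤ β)
    (C : Fin (R + R) → ZMod p) : ‖kr b τ i C‖ * n0 ≤ β := by
  have hp0 : (0 : ℝ) < p := Nat.cast_pos.mpr hp.out.pos
  by_cases hC : (supp C).card + 2 ≤ τ
  · rw [kr_zero b τ i C hC, norm_zero, zero_mul]
    exact hβ
  have e1 : (p : ℝ) ^ 2 * (‖kr b τ i C‖ * n0) ≤ (p : ℝ) ^ 2 * β := by
    calc (p : ℝ) ^ 2 * (‖kr b τ i C‖ * n0)
        ≤ (p : ℝ) ^ 2 * ((∑ s, ∑ s', ‖if (supp (C - sg i s s')).card ≤ τ then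
            KF b (C - sg i s s') * Fh (Ph b i) s s' else 0‖) * n0) := by
          refine mul_le_mul_of_nonneg_left (mul_le_mul_of_nonneg_right ?_ hn0) (by positivity)
          exact (norm_sum_le _ _).trans (sum_le_sum fun s _ => norm_sum_le _ _)
      _ = ∑ s, ∑ s', (p : ℝ) ^ 2 * ‖if (supp (C - sg i s s')).card ≤ τ then
            KF b (C - sg i s s') * Fh (Ph b i) s s' else 0‖ * n0 := by
          rw [sum_mul, mul_sum]
          refine sum_congr rfl fun s _ => ?_
          rw [sum_mul, mul_sum]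
          exact sum_congr rfl fun s' _ => by ring
      _ ≤ ∑ s : ZMod p, ∑ s' : ZMod p, β := by
          refine sum_le_sum fun s _ => sum_le_sum fun s' _ => ?_
          split_ifs with h
          · rw [norm_mul]
            have h1 := hb (C - sg i s s') (by
              have h2 := sw_tri C (sg i s s')
              have h3 := sw_sg i s s'
              omega)
            have h2 := norm_Fh (Ph b i) (norm_Ph b i) s s'
            refine le_trans ?_ h1
            refine mul_le_mul_of_nonneg_right ?_ hn0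
            refine mul_le_mul_of_nonneg_left ?_ (by positivity)
            exact mul_le_of_le_one_right (norm_nonneg _) h2
          · rw [norm_zero, mul_zero, zero_mul]
            exact hβ
      _ = (p : ℝ) ^ 2 * β := by
          simp [ZMod.card]
          ring
  exact le_of_mul_le_mul_left e1 (by positivity)

/-- counting the kernel: rows -/
theorem row_count {M N : ℕ} (A : Fin M → Fin N → ZMod p) (S : Finset (Fin M → ZMod p))
    (V : Finset (Fin N → ZMod p)) (x : Fin N → ZMod p) (κ : (Fin M → ZMod p) → ℂ) (γ : ℝ)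
    (hκ : ∀ C, ‖κ C‖ ≤ γ) :
    ∑ y ∈ V, ‖∑ C ∈ S.filter (fun C => comb A C = y - x), κ C‖ ≤
      ((S.filter (fun C => x + comb A C ∈ V)).card : ℝ) * γ := by
  have e1 : ∀ y ∈ V, ‖∑ C ∈ S.filter (fun C => comb A C = y - x), κ C‖ ≤
      (((S.filter (fun C => x + comb A C ∈ V)).filter (fun C => x + comb A C = y)).card : ℝ) *
        γ := by
    intro y hy
    have e2 : S.filter (fun C => comb A C = y - x) =
        (S.filter (fun C => x + comb A C ∈ V)).filter (fun C => x + comb A C = y) := by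
      ext C
      simp only [mem_filter]
      constructor
      · rintro ⟨h1, h2⟩
        have h3 : x + comb A C = y := by rw [h2]; abel
        exact ⟨⟨h1, by rw [h3]; exact hy⟩, h3⟩
      · rintro ⟨⟨h1, _⟩, h3⟩
        exact ⟨h1, by rw [← h3]; abel⟩
    rw [e2]
    refine (norm_sum_le _ _).trans ?_
    rw [← nsmul_eq_mul]
    exact sum_le_card_nsmul _ _ _ fun C _ => hκ C
  refine (sum_le_sum e1).trans ?_
  rw [← sum_mul]
  refine mul_le_mul_of_nonneg_right ?_ ((norm_nonneg _).trans (hκ 0))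
  rw [← Nat.cast_sum, Nat.cast_le]
  refine le_of_eq (card_eq_sum_card_fiberwise ?_).symm
  intro C hC
  have hC' := hC
  simp only [coe_filter, Set.mem_setOf_eq] at hC'
  exact hC'.2

theorem col_count {M N : ℕ} (A : Fin M → Fin N → ZMod p) (S : Finset (Fin M → ZMod p))
    (hS : ∀ C, C ∈ S ↔ -C ∈ S)
    (V : Finset (Fin N → ZMod p)) (y : Fin N → ZMod p) (κ : (Fin M → ZMod p) → ℂ) (γ : ℝ)
    (hκ : ∀ C, ‖κ C‖ ≤ γ) :
    ∑ x ∈ V, ‖∑ C ∈ S.filter (fun C => comb A C = y - x), κ C‖ ≤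
      ((S.filter (fun C => y + comb A C ∈ V)).card : ℝ) * γ := by
  refine le_trans (le_of_eq ?_) (row_count A S V y (fun C => κ (-C)) γ fun C => hκ (-C))
  refine sum_congr rfl fun x _ => ?_
  congr 1
  refine sum_bij' (fun C _ => -C) (fun C _ => -C) ?_ ?_ ?_ ?_ ?_
  · intro C hC
    rw [mem_filter] at hC ⊢
    refine ⟨(hS C).1 hC.1, ?_⟩
    rw [comb_neg', hC.2, neg_sub]
  · intro C hC
    rw [mem_filter] at hC ⊢
    refine ⟨(hS C).1 hC.1, ?_⟩
    rw [comb_neg', hC.2, neg_sub]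
  · intro C _
    exact neg_neg C
  · intro C _
    exact neg_neg C
  · intro C _
    rw [neg_neg]

open Classical in
/-- LV -/
theorem pf_LV (h0 : T_CPX) (h1 : T_PSV) (h2 : T_FOU) (h3 : T_COV) (h4 : T_SCH) : T_LV := by
  intro p R N E h t₀ τ t₁ hp A b β hE hβ hst hτ ht hb i f hf
  obtain ⟨a, ha⟩ := h2 p N h f hf
  have hn0 : 0 < (2 * E * (CC p (R + R) t₀).card : ℝ) := by
    have c1 : 0 < (CC p (R + R) t₀).card := by
      rw [card_pos]
      refine ⟨0, ?_⟩
      unfold CC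
      rw [mem_filter, sw_zero]
      exact ⟨mem_univ _, Nat.zero_le _⟩
    have c2 : (0 : ℝ) < E := by exact_mod_cast hE
    have c3 : (0 : ℝ) < (CC p (R + R) t₀).card := by exact_mod_cast c1
    positivity
  obtain ⟨n0, hn0def⟩ : ∃ n0 : ℝ, n0 = 2 * E * (CC p (R + R) t₀).card := ⟨_, rfl⟩
  rw [← hn0def] at hn0 hb
  have hκ : ∀ C, ‖kr b τ i C‖ ≤ β / n0 := by
    intro C
    rw [le_div_iff₀ hn0]
    exact kr_small b τ i n0 β hn0.le hβ hb C
  have hcov : ∀ v : Fin N → ZMod p, (((CC p (R + R) (τ + 2)).filter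
      (fun C => v + comb A C ∈ BB p N h)).card : ℝ) * (β / n0) ≤ β := by
    intro v
    have c1 : ((CC p (R + R) (τ + 2)).filter (fun C => v + comb A C ∈ BB p N h)) =
        ((CC p (R + R) (τ + 2)).filter (fun C => (supp (v + comb A C)).card ≤ h)) := by
      refine filter_congr fun C _ => ?_
      unfold BB
      simp only [mem_filter, mem_univ, true_and]
    have c2 := h3 p (R + R) N E h t₀ t₁ (τ + 2) A hst hE ht v
    rw [c1]
    have c3 : (((CC p (R + R) (τ + 2)).filter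
        (fun C => (supp (v + comb A C)).card ≤ h)).card : ℝ) ≤ n0 := by
      rw [hn0def]
      exact_mod_cast c2
    have c4 : 0 ≤ β / n0 := by positivity
    calc (((CC p (R + R) (τ + 2)).filter
        (fun C => (supp (v + comb A C)).card ≤ h)).card : ℝ) * (β / n0) ≤ n0 * (β / n0) :=
          mul_le_mul_of_nonneg_right c3 c4
      _ = β := by field_simp
  have hS : ∀ C, C ∈ CC p (R + R) (τ + 2) ↔ -C ∈ CC p (R + R) (τ + 2) := by
    intro C
    unfold CC
    rw [mem_filter, mem_filter, sw_neg]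
    simp
  have hq := quad_form A (CC p (R + R) (τ + 2)) (kr b τ i)
    (fun z => if Bad A b i z then D0 A τ b z else 0) (fun z => bad_complex h0 A τ b i z)
    (BB p N h) a f ha
  have hs := h4 (Fin N → ZMod p) (BB p N h) (fun x y => -∑ C ∈ (CC p (R + R) (τ + 2)).filter
    (fun C => comb A C = y - x), kr b τ i C) β (by
      intro x _
      simp only [norm_neg]
      exact (row_count A _ _ x _ _ hκ).trans (hcov x)) (by
      intro y _
      simp only [norm_neg]
      exact (col_count A _ hS _ y _ _ hκ).trans (hcov y)) a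
  have hps := h1 p N (BB p N h) a f ha
  have hre : ∑ z, (if Bad A b i z then D0 A τ b z else 0) * f z ^ 2 =
      (p : ℝ) ^ N * (∑ x ∈ BB p N h, ∑ y ∈ BB p N h, a x * (starRingEnd ℂ) (a y) *
        ∑ C ∈ (CC p (R + R) (τ + 2)).filter (fun C => comb A C = y - x), kr b τ i C).re := by
    have c1 := congrArg Complex.re hq
    rw [Complex.ofReal_re] at c1
    rw [c1]
    have c2 : ((p : ℂ) ^ N) = (((p : ℝ) ^ N : ℝ) : ℂ) := by push_cast; rfl
    rw [c2, Complex.re_ofReal_mul]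
  have hs' : (∑ x ∈ BB p N h, ∑ y ∈ BB p N h, a x * (starRingEnd ℂ) (a y) *
        ∑ C ∈ (CC p (R + R) (τ + 2)).filter (fun C => comb A C = y - x), kr b τ i C).re ≤
      β * ∑ x ∈ BB p N h, ‖a x‖ ^ 2 := by
    simp only [mul_neg, sum_neg_distrib, Complex.neg_re] at hs
    linarith
  have e1 : ∑ z, (β - if Bad A b i z then D0 A τ b z else 0) * f z ^ 2 =
      β * ∑ z, f z ^ 2 - ∑ z, (if Bad A b i z then D0 A τ b z else 0) * f z ^ 2 := by
    rw [mul_sum, ← sum_sub_distrib]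
    exact sum_congr rfl fun z _ => by ring
  show 0 ≤ ∑ z, (β - if Bad A b i z then D0 A τ b z else 0) * f z ^ 2
  rw [e1, hre, hps]
  have hpN : (0 : ℝ) ≤ (p : ℝ) ^ N := by positivity
  have := mul_le_mul_of_nonneg_left hs' hpN
  linarith

end

end Pool.Agent.H73.QD
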