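import Pool.Agent.H73.QD.LV
import Pool.Agent.H43.QO.TargetsB

/-!
# Row LVP of `qo_modules` from the kernel of LV (helper73, MP_c62aed_lc)
-/

set_option autoImplicit false

open Finset Pool.Agent.H76.QE
open Pool.Agent.H1.LP (supp ip comb kk S_DISP S_COL S_SMALL)
open H43.PS (PosDeg Low av)
open Pool.Agent.H73.OX (ch)

namespace Pool.Agent.H73.QD

open Classical in
/-- LVP -/
theorem pf_LVP (h0 : T_CPX) (h1 : T_PSV) (h2 : T_FOU) (h3 : T_COV) (h4 : T_SCH) :
    Pool.Agent.H43.QO.T_LVP := by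
  intro p R N E h t₀ τ t₁ hp A b β hE hβ _ hst hτ ht hb i f hf
  obtain ⟨a, ha⟩ := h2 p N h f hf
  have hn0 : 0 < (2 * E * (CC p (R + R) t₀).card : ℝ) := by
    have c1 : 0 < (CC p (R + R) t₀).card := by
      rw [card_pos]
      refine ⟨0, ?_⟩
      unfold CC
      rw [mem_filter, sw_zero]
      exact ⟨mem_univ _, Nat.zero_le _⟩
    have c2 : (0 : ℝ) < E := by exact_mod_cast hE
    have c3 : (0 : ℝ) < (CC p (R + R) t₀).card := by exact_mod_cast c1
    positivity
  obtain ⟨n0, hn0def⟩ : ∃ n0 : ℝ, n0 = 2 * E * (CC p (R + R) t₀).card := ⟨_, rfl⟩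
  rw [← hn0def] at hn0 hb
  have hκ : ∀ C, ‖kr b τ i C‖ ≤ β / n0 := by
    intro C
    rw [le_div_iff₀ hn0]
    exact kr_small b τ i n0 β hn0.le hβ hb C
  have hcov : ∀ v : Fin N → ZMod p, (((CC p (R + R) (τ + 2)).filter
      (fun C => v + comb A C ∈ BB p N h)).card : ℝ) * (β / n0) ≤ β := by
    intro v
    have c1 : ((CC p (R + R) (τ + 2)).filter (fun C => v + comb A C ∈ BB p N h)) =
        ((CC p (R + R) (τ + 2)).filter (fun C => (supp (v + comb A C)).card ≤ h)) := by
      refine filter_congr fun C _ => ?_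
      unfold BB
      simp only [mem_filter, mem_univ, true_and]
    have c2 := h3 p (R + R) N E h t₀ t₁ (τ + 2) A hst hE ht v
    rw [c1]
    have c3 : (((CC p (R + R) (τ + 2)).filter
        (fun C => (supp (v + comb A C)).card ≤ h)).card : ℝ) ≤ n0 := by
      rw [hn0def]
      exact_mod_cast c2
    have c4 : 0 ≤ β / n0 := by positivity
    calc (((CC p (R + R) (τ + 2)).filter
        (fun C => (supp (v + comb A C)).card ≤ h)).card : ℝ) * (β / n0) ≤ n0 * (β / n0) :=
          mul_le_mul_of_nonneg_right c3 c4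
      _ = β := by field_simp
  have hS : ∀ C, C ∈ CC p (R + R) (τ + 2) ↔ -C ∈ CC p (R + R) (τ + 2) := by
    intro C
    unfold CC
    rw [mem_filter, mem_filter, sw_neg]
    simp
  have hq := quad_form A (CC p (R + R) (τ + 2)) (kr b τ i)
    (fun z => if Bad A b i z then D0 A τ b z else 0) (fun z => bad_complex h0 A τ b i z)
    (BB p N h) a f ha
  have hs := h4 (Fin N → ZMod p) (BB p N h) (fun x y => -∑ C ∈ (CC p (R + R) (τ + 2)).filter
    (fun C => comb A C = y - x), kr b τ i C) β (by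
      intro x _
      simp only [norm_neg]
      exact (row_count A _ _ x _ _ hκ).trans (hcov x)) (by
      intro y _
      simp only [norm_neg]
      exact (col_count A _ hS _ y _ _ hκ).trans (hcov y)) a
  have hs2 := h4 (Fin N → ZMod p) (BB p N h) (fun x y => ∑ C ∈ (CC p (R + R) (τ + 2)).filter
    (fun C => comb A C = y - x), kr b τ i C) β (by
      intro x _
      exact (row_count A _ _ x _ _ hκ).trans (hcov x)) (by
      intro y _
      exact (col_count A _ hS _ y _ _ hκ).trans (hcov y)) a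
  have hps := h1 p N (BB p N h) a f ha
  have hre : ∑ z, (if Bad A b i z then D0 A τ b z else 0) * f z ^ 2 =
      (p : ℝ) ^ N * (∑ x ∈ BB p N h, ∑ y ∈ BB p N h, a x * (starRingEnd ℂ) (a y) *
        ∑ C ∈ (CC p (R + R) (τ + 2)).filter (fun C => comb A C = y - x), kr b τ i C).re := by
    have c1 := congrArg Complex.re hq
    rw [Complex.ofReal_re] at c1
    rw [c1]
    have c2 : ((p : ℂ) ^ N) = (((p : ℝ) ^ N : ℝ) : ℂ) := by push_cast; rfl
    rw [c2, Complex.re_ofReal_mul]
  have hs' : (∑ x ∈ BB p N h, ∑ y ∈ BB p N h, a x * (starRingEnd ℂ) (a y) *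
        ∑ C ∈ (CC p (R + R) (τ + 2)).filter (fun C => comb A C = y - x), kr b τ i C).re ≤
      β * ∑ x ∈ BB p N h, ‖a x‖ ^ 2 := by
    simp only [mul_neg, sum_neg_distrib, Complex.neg_re] at hs
    linarith
  have hpN : (0 : ℝ) ≤ (p : ℝ) ^ N := by positivity
  have k1 := mul_le_mul_of_nonneg_left hs' hpN
  have k2 := mul_le_mul_of_nonneg_left hs2 hpN
  rw [hre, hps, abs_le]
  constructor <;> linarith

end Pool.Agent.H73.QD
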