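import Pool.Agent.H76.QE.Targets

/-!
# Quadratic equations over `ZMod p`: the violation of one equation is small on squares (helper73)

Additional targets of the board `qd_modules` (MP_c62aed_lc): clause constraints chosen after the
formula (helper43) need the density restricted to the violation of one equation to be at most `θ` on
all squares of functions of degree at most `h`.
-/

set_option autoImplicit false

namespace Pool.Agent.H73.QD

open Finset
open Pool.Agent.H76.QE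
open Pool.Agent.H1.LP (supp ip comb)
open H43.PS (PosDeg Low av)

open Classical in
/-- As `Good`, and the density restricted to the violation of one constraint is at most `θ` on the
squares of the functions of degree at most `h`. -/
def GoodV (p N R k h : ℕ) [NeZero p] (g θ : ℝ) : Prop :=
  ∃ (T : Fin R → Finset (Fin N)) (bad : Fin R → (Fin N → ZMod p) → Prop)
    (D : (Fin N → ZMod p) → ℝ), (∀ i, (T i).card = k) ∧
    (∀ i z z', (∀ j ∈ T i, z j = z' j) → (bad i z ↔ bad i z')) ∧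
    (∀ z, g * R ≤ ((univ.filter (fun i => bad i z)).card : ℝ)) ∧
    (∀ z, |D z| ≤ (p : ℝ) ^ N) ∧ PosDeg h D ∧ av D = 1 ∧
    (∀ i, 0 ≤ av (fun z => if bad i z then D z else 0) ∧
      av (fun z => if bad i z then D z else 0) ≤ θ) ∧
    ∀ i, PosDeg h (fun z => θ - if bad i z then D z else 0)

open Classical in
/-- LV: `T_PSV → T_FOU → T_COV → T_SCH → T_LV`; the violation of one equation is small -/
def T_LV : Prop := ∀ (p R N E h t₀ τ t₁ : ℕ) [Fact p.Prime] (A : Fin (R + R) → Fin N → ZMod p)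
  (b : Fin (R + R) → ZMod p) (β : ℝ), 1 ≤ E → 0 ≤ β → NoStar A E h t₀ t₁ → 2 ≤ τ →
  2 * (τ + 2) ≤ t₁ →
  (∀ C : Fin (R + R) → ZMod p, τ < (supp C).card + 4 →
    (p : ℝ) ^ 2 * ‖KF b C‖ * (2 * E * (CC p (R + R) t₀).card) ≤ β) →
  ∀ i : Fin R, PosDeg h (fun z => β - if Bad A b i z then D0 A τ b z else 0)

/-- GOV: `T_CNT → T_DZP → T_KFB → T_POS → T_LV → T_SYQ → T_GOV`; `T_GOO` for `GoodV` -/
def T_GOV : Prop := ∀ E : ℕ, 2 ≤ E → ∃ (K w ρ k p : ℕ) (_ : Fact p.Prime), E ≤ K ∧ 1 ≤ w ∧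
  1 ≤ ρ ∧ 1 ≤ k ∧ 2 ^ K < p ∧ p ≤ 2 ^ (K + 1) ∧ ∀ u : ℕ, k ≤ u →
    GoodV p (w * u) (ρ * u) k (w * u - w * u / E) (1 - 1 / (E : ℝ)) (((4 : ℝ) ^ (w * u))⁻¹)

end Pool.Agent.H73.QD
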