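import Pool.Agent.H76.QE.Targets

/-!
# Rows PTH and CON of `qd_modules` (helper73, MP_c62aed_lc, MP_0f8dca_lc)
-/

set_option autoImplicit false

open Finset Pool.Agent.H76.QE
open Pool.Agent.H1.LP (supp ip comb kk S_DISP S_COL S_SMALL)
open H43.PS (PosDeg Low av)
open Pool.Agent.H73.OX (ch)

namespace Pool.Agent.H73.QD

section

variable {p N M : ℕ}

theorem sw_zero : (supp (0 : Fin M → ZMod p)).card = 0 := by
  simp [supp]

theorem sw_neg (C : Fin M → ZMod p) : (supp (-C)).card = (supp C).card := by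
  unfold supp
  congr 1
  ext i
  simp

theorem sw_add (C C' : Fin M → ZMod p) :
    (supp (C + C')).card ≤ (supp C).card + (supp C').card := by
  classical
  unfold supp
  refine le_trans (card_le_card ?_) (card_union_le _ _)
  intro i hi
  simp only [mem_filter, mem_univ, true_and, Pi.add_apply, mem_union] at hi ⊢
  by_contra hc
  push Not at hc
  exact hi (by rw [hc.1, hc.2, add_zero])

theorem sw_sub (C C' : Fin M → ZMod p) :
    (supp (C - C')).card ≤ (supp C).card + (supp C').card := by
  have := sw_add C (-C')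
  rwa [sw_neg, ← sub_eq_add_neg] at this

theorem sw_sub_comm (C C' : Fin M → ZMod p) : (supp (C - C')).card = (supp (C' - C)).card := by
  rw [← neg_sub, sw_neg]

theorem sw_tri (C C' : Fin M → ZMod p) :
    (supp C).card ≤ (supp C').card + (supp (C - C')).card := by
  have := sw_add C' (C - C')
  rwa [add_sub_cancel] at this

/-- first passage -/
theorem fpass (S : ℕ → Fin M → ZMod p) (s T : ℕ) (h0 : S 0 = 0) (n : ℕ)
    (hs : ∀ j, j < n → (supp (S (j + 1) - S j)).card ≤ s) (hT : T ≤ (supp (S n)).card) :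
    ∃ j, j ≤ n ∧ T ≤ (supp (S j)).card ∧ (supp (S j)).card ≤ T + s := by
  induction n with
  | zero =>
    refine ⟨0, le_rfl, hT, ?_⟩
    rw [h0, sw_zero]
    omega
  | succ n ih =>
    by_cases hn : T ≤ (supp (S n)).card
    · obtain ⟨j, hj, h1, h2⟩ := ih (fun j hj => hs j (by omega)) hn
      exact ⟨j, by omega, h1, h2⟩
    · refine ⟨n + 1, le_rfl, hT, ?_⟩
      have h1 := sw_tri (S (n + 1)) (S n)
      have h2 := hs n (by omega)
      omega

/-- PTH -/
theorem pf_PTH : T_PTH := by
  intro p M N E h t₀ t₁ s _ A hst hE h0 h8 v C hP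
  obtain ⟨n, S, hS0, hSn, hstep, hmem⟩ := hP
  by_contra hC
  push Not at hC
  rw [← hSn] at hC
  have hex : ∀ i : Fin (2 * E), ∃ j, j ≤ n ∧ 2 * i.1 * s ≤ (supp (S j)).card ∧
      (supp (S j)).card ≤ 2 * i.1 * s + s := by
    intro i
    refine fpass S s (2 * i.1 * s) hS0 n hstep (le_trans ?_ hC)
    exact Nat.mul_le_mul_right _ (by have := i.2; omega)
  choose J hJ using hex
  refine hst v (fun i => S (J i)) (fun i => hmem _ (hJ i).1) ?_
  have key : ∀ i j : Fin (2 * E), i.1 < j.1 → t₀ < (supp (S (J i) - S (J j))).card := by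
    intro i j hij
    have a1 := (hJ i).2.2
    have a2 := (hJ j).2.1
    have a3 := sw_tri (S (J j)) (S (J i))
    rw [sw_sub_comm] at a3
    have a4 : 2 * i.1 * s + s + s ≤ 2 * j.1 * s := by
      have e : 2 * i.1 * s + s + s = 2 * (i.1 + 1) * s := by ring
      rw [e]
      exact Nat.mul_le_mul_right _ (by omega)
    omega
  intro i j hij
  constructor
  · rcases lt_or_gt_of_ne (fun h => hij (Fin.ext h) : i.1 ≠ j.1) with h | h
    · exact key i j h
    · show t₀ < (supp (S (J i) - S (J j))).card
      rw [sw_sub_comm]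
      exact key j i h
  · have a1 := (hJ i).2.2
    have a2 := (hJ j).2.2
    have a3 := sw_sub (S (J i)) (S (J j))
    have a4 : ∀ i : Fin (2 * E), 2 * i.1 * s + s ≤ 4 * E * s := by
      intro i
      have e : 2 * i.1 * s + s = (2 * i.1 + 1) * s := by ring
      rw [e]
      exact Nat.mul_le_mul_right _ (by have := i.2; omega)
    have a5 := a4 i
    have a6 := a4 j
    have a7 : 4 * E * s + 4 * E * s = 8 * E * s := by ring
    show (supp (S (J i) - S (J j))).card ≤ t₁
    omega

end

end Pool.Agent.H73.QD
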